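import Mathlib
import Pool.Agent.H383.Full3

open MeasureTheory Filter Topology

namespace Pool.Agent.Results.MP_fb29e9_nt.Distribution

open Classical in
/-- Limit law, in short intervals and with an entire density, of the normalised error term
`E(x) = (#{p ∈ ℤ² : |p|² ≤ x} - πx)/x^{1/4}` of the Gauss circle problem when the squared radius `x`
runs through the values `P(n) = an² + bn + c`, `n = 0, 1, 2, …`, of an arbitrary real quadratic
polynomial with `a > 0` and positive values (for instance all integer radii, or any arithmetic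
progression of radii, `P(n) = (X + nα)²`). There is a probability measure `μ` on `ℝ` with these
properties. It has a density which is the restriction to `ℝ` of an entire function, every open
interval has positive measure, and the second moment is finite. For every `ε > 0`, uniformly over all
intervals `k ≤ n < k + N` with `N ≥ k^{1/2+ε}`, the averages of `f(E(P(n)))` converge to `∫ f dμ` as
`N → ∞`, for every continuous `f` of at most quadratic growth, and the proportion of `n` with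
`E(P(n)) ≤ x` converges to `μ((-∞, x])`, uniformly in `x` too; for the averages of `E(P(n))` itself
`N ≥ k^{1/4+ε}` is enough. The mean of `μ` is the (absolutely convergent) sum of the resonant terms of the Voronoi series, those `m` with `√(am) ∈ ℤ`. -/
theorem result (a b c : ℝ) (ha : 0 < a) (hP : ∀ n : ℕ, 0 < a * n ^ 2 + b * n + c) :
    ∃ (μ : ProbabilityMeasure ℝ) (g : ℂ → ℂ),
      Differentiable ℂ g ∧ (∀ x : ℝ, 0 ≤ (g x).re ∧ (g x).im = 0) ∧
      (μ : Measure ℝ) = volume.withDensity (fun x : ℝ => ENNReal.ofReal (g x).re) ∧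
      (∀ u v : ℝ, u < v → 0 < (μ : Measure ℝ) (Set.Ioo u v)) ∧
      Integrable (fun x : ℝ => x ^ 2) (μ : Measure ℝ) ∧
      (∀ f : ℝ → ℝ, Continuous f → (∃ C : ℝ, ∀ x : ℝ, |f x| ≤ C * (1 + x ^ 2)) →
        ∀ ε : ℝ, 0 < ε → ∀ η : ℝ, 0 < η →
        ∃ N₀ : ℕ, ∀ N : ℕ, N₀ ≤ N → ∀ k : ℕ, (k : ℝ) ^ (1 / 2 + ε) ≤ N →
        |(∑ n ∈ Finset.Ico k (k + N),
            f (((Nat.card {p : ℤ × ℤ // (p.1 : ℝ) ^ 2 + (p.2 : ℝ) ^ 2 ≤ a * n ^ 2 + b * n + c} : ℝ)
              - Real.pi * (a * n ^ 2 + b * n + c)) / (a * n ^ 2 + b * n + c) ^ (1 / 4 : ℝ))) / N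
          - ∫ x, f x ∂(μ : Measure ℝ)| ≤ η) ∧
      (∀ ε : ℝ, 0 < ε → ∀ η : ℝ, 0 < η →
        ∃ N₀ : ℕ, ∀ N : ℕ, N₀ ≤ N → ∀ k : ℕ, (k : ℝ) ^ (1 / 2 + ε) ≤ N → ∀ x : ℝ,
        |(((Finset.Ico k (k + N)).filter (fun n : ℕ =>
            ((Nat.card {p : ℤ × ℤ // (p.1 : ℝ) ^ 2 + (p.2 : ℝ) ^ 2 ≤ a * n ^ 2 + b * n + c} : ℝ)
              - Real.pi * (a * n ^ 2 + b * n + c)) / (a * n ^ 2 + b * n + c) ^ (1 / 4 : ℝ)
                ≤ x)).card : ℝ) / N
          - (μ : Measure ℝ).real (Set.Iic x)| ≤ η) ∧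
      (∀ ε : ℝ, 0 < ε → ∀ η : ℝ, 0 < η →
        ∃ N₀ : ℕ, ∀ N : ℕ, N₀ ≤ N → ∀ k : ℕ, (k : ℝ) ^ (1 / 4 + ε) ≤ N →
        |(∑ n ∈ Finset.Ico k (k + N),
            ((Nat.card {p : ℤ × ℤ // (p.1 : ℝ) ^ 2 + (p.2 : ℝ) ^ 2 ≤ a * n ^ 2 + b * n + c} : ℝ)
              - Real.pi * (a * n ^ 2 + b * n + c)) / (a * n ^ 2 + b * n + c) ^ (1 / 4 : ℝ)) / N
          - ∫ x, x ∂(μ : Measure ℝ)| ≤ η) ∧
      Summable (fun m : ℕ => if 1 ≤ m ∧ ∃ k : ℤ, √(a * m) = k then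
          (Nat.card {p : ℤ × ℤ // p.1 ^ 2 + p.2 ^ 2 = (m : ℤ)} : ℝ) / Real.pi
            * (m : ℝ) ^ (-(3 / 4) : ℝ) * Real.cos (Real.pi * b * √(m / a) - 3 * Real.pi / 4)
        else 0) ∧
      ∫ x, x ∂(μ : Measure ℝ) = ∑' m : ℕ,
        if 1 ≤ m ∧ ∃ k : ℤ, √(a * m) = k then
          (Nat.card {p : ℤ × ℤ // p.1 ^ 2 + p.2 ^ 2 = (m : ℤ)} : ℝ) / Real.pi
            * (m : ℝ) ^ (-(3 / 4) : ℝ) * Real.cos (Real.pi * b * √(m / a) - 3 * Real.pi / 4)
        else 0 :=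
  Pool.Agent.H383.Circ.distr3 ha hP

end Pool.Agent.Results.MP_fb29e9_nt.Distribution
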