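import Mathlib
import Pool.Agent.H383.Full3

open Filter Topology

namespace Pool.Agent.Results.MP_fb29e9_nt.LargeValues

open Classical in
/-- Where and how often the error term `N(x) - πx`, `N(x) = #{p ∈ ℤ² : |p|² ≤ x}`, of the Gauss circle
problem exceeds `K x^{1/4}` (`= K R^{1/2}` in terms of the radius `R = √x`), and where it is below
`-K x^{1/4}`, on the values `x = P(n) = an² + bn + c` of an arbitrary real quadratic polynomial with
`a > 0` and positive values (for instance on all integer radii, `P(n) = (n+1)²`, or on the terms of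
any arithmetic progression of radii): there are such `n` in every interval `k ≤ n < k + N` with
`N ≥ k^{1/4+ε}`, `N` large; and if even `N ≥ k^{1/2+ε}`, then their proportion lies between
`exp(-C K⁴ (log K)³)` and `exp(-K^{4-δ})`, with a constant `C` that depends on `P` only, for every
`δ > 0` and all `K ≥ K₀(δ)`. -/
theorem result (a b c : ℝ) (ha : 0 < a) (hP : ∀ n : ℕ, 0 < a * n ^ 2 + b * n + c) :
    ∃ C : ℝ, 0 < C ∧ ∀ δ : ℝ, 0 < δ → ∃ K₀ : ℝ, 2 ≤ K₀ ∧ ∀ K : ℝ, K₀ ≤ K → ∀ ε : ℝ, 0 < ε →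
      ∃ N₀ : ℕ, ∀ N : ℕ, N₀ ≤ N → ∀ k : ℕ,
        ((k : ℝ) ^ (1 / 4 + ε) ≤ N →
          (∃ n ∈ Finset.Ico k (k + N), K * (a * n ^ 2 + b * n + c) ^ (1 / 4 : ℝ) <
            (Nat.card {p : ℤ × ℤ // (p.1 : ℝ) ^ 2 + (p.2 : ℝ) ^ 2 ≤ a * n ^ 2 + b * n + c} : ℝ)
              - Real.pi * (a * n ^ 2 + b * n + c)) ∧
          (∃ n ∈ Finset.Ico k (k + N),
            (Nat.card {p : ℤ × ℤ // (p.1 : ℝ) ^ 2 + (p.2 : ℝ) ^ 2 ≤ a * n ^ 2 + b * n + c} : ℝ)
              - Real.pi * (a * n ^ 2 + b * n + c)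
                < -(K * (a * n ^ 2 + b * n + c) ^ (1 / 4 : ℝ)))) ∧
        ((k : ℝ) ^ (1 / 2 + ε) ≤ N →
        (Real.exp (-(C * K ^ 4 * (Real.log K) ^ 3)) * N ≤
          (((Finset.Ico k (k + N)).filter (fun n : ℕ => K * (a * n ^ 2 + b * n + c) ^ (1 / 4 : ℝ) <
            (Nat.card {p : ℤ × ℤ // (p.1 : ℝ) ^ 2 + (p.2 : ℝ) ^ 2 ≤ a * n ^ 2 + b * n + c} : ℝ)
              - Real.pi * (a * n ^ 2 + b * n + c))).card : ℝ) ∧
         (((Finset.Ico k (k + N)).filter (fun n : ℕ => K * (a * n ^ 2 + b * n + c) ^ (1 / 4 : ℝ) <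
            (Nat.card {p : ℤ × ℤ // (p.1 : ℝ) ^ 2 + (p.2 : ℝ) ^ 2 ≤ a * n ^ 2 + b * n + c} : ℝ)
              - Real.pi * (a * n ^ 2 + b * n + c))).card : ℝ)
          ≤ Real.exp (-(K ^ (4 - δ))) * N) ∧
        (Real.exp (-(C * K ^ 4 * (Real.log K) ^ 3)) * N ≤
          (((Finset.Ico k (k + N)).filter (fun n : ℕ =>
            (Nat.card {p : ℤ × ℤ // (p.1 : ℝ) ^ 2 + (p.2 : ℝ) ^ 2 ≤ a * n ^ 2 + b * n + c} : ℝ)
              - Real.pi * (a * n ^ 2 + b * n + c)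
                < -(K * (a * n ^ 2 + b * n + c) ^ (1 / 4 : ℝ)))).card : ℝ) ∧
         (((Finset.Ico k (k + N)).filter (fun n : ℕ =>
            (Nat.card {p : ℤ × ℤ // (p.1 : ℝ) ^ 2 + (p.2 : ℝ) ^ 2 ≤ a * n ^ 2 + b * n + c} : ℝ)
              - Real.pi * (a * n ^ 2 + b * n + c)
                < -(K * (a * n ^ 2 + b * n + c) ^ (1 / 4 : ℝ)))).card : ℝ)
          ≤ Real.exp (-(K ^ (4 - δ))) * N)) :=
  Pool.Agent.H383.Circ.large3 ha hP

end Pool.Agent.Results.MP_fb29e9_nt.LargeValues
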