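import Mathlib
import Pool.Agent.H452R2.Om.O10

open Filter Topology

namespace Pool.Agent.Results.MP_fb29e9_nt.OmegaRecord

open Classical in
/-- Large negative values of the error term `N(x) - πx`, `N(x) = #{p ∈ ℤ² : |p|² ≤ x}`, of the Gauss
circle problem along `x = an² + c` (`a > 0`, `c ≥ 0`; for instance for the radii `√x = αn`, and
in particular for integer radii), in the full range up to the conjectured maximal order: for all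
large `N` and all `V` between a constant and `c₀ (log N)^{1/4} (loglog N)^{(3/4)(2^{1/3}-1)}` the number
of `1 ≤ n ≤ N` with `N(x) - πx ≤ -V x^{1/4}` is at least `N exp(-C₀ V⁴ (log V)^{-3(2^{1/3}-1)})`, and
this is at least `N^{1-ε}`. -/
theorem result (a c : ℝ) (ha : 0 < a) (hc : 0 ≤ c) :
    ∃ C₀ V₀ : ℝ, 0 < C₀ ∧ 1 < V₀ ∧ ∀ ε : ℝ, 0 < ε → ∃ c₀ : ℝ, 0 < c₀ ∧ ∃ N₀ : ℕ, ∀ N : ℕ, N₀ ≤ N →
      ∀ V : ℝ, V₀ ≤ V →
        V ≤ c₀ * (Real.log N) ^ (1 / 4 : ℝ) *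
          (Real.log (Real.log N)) ^ ((3 / 4) * ((2 : ℝ) ^ (1 / 3 : ℝ) - 1)) →
        (N : ℝ) ^ (1 - ε) ≤
          N * Real.exp (-(C₀ * V ^ 4 * (Real.log V) ^ (-(3 * ((2 : ℝ) ^ (1 / 3 : ℝ) - 1))))) ∧
        N * Real.exp (-(C₀ * V ^ 4 * (Real.log V) ^ (-(3 * ((2 : ℝ) ^ (1 / 3 : ℝ) - 1))))) ≤
          (((Finset.Icc 1 N).filter (fun n : ℕ =>
            (Nat.card {p : ℤ × ℤ // (p.1 : ℝ) ^ 2 + (p.2 : ℝ) ^ 2 ≤ a * n ^ 2 + c} : ℝ)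
              - Real.pi * (a * n ^ 2 + c) ≤ -(V * (a * n ^ 2 + c) ^ (1 / 4 : ℝ)))).card : ℝ) :=
  Pool.Agent.H452R2.Om.circ_tail ha hc

end Pool.Agent.Results.MP_fb29e9_nt.OmegaRecord
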