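import Mathlib
import Pool.Agent.H452R2.Circ.C1

namespace Pool.Agent.Results.MP_fb29e9_nt.Progressions

/-- Mean square of the error term `N(x) - π x` of the Gauss circle problem (`N(x)` the number of integer
points in the closed disc of squared radius `x`) over any block of `L` values `x_0, x_1, …` within a
bounded distance of `(X + jα)²`: any arithmetic progression of radii, and any quadratic polynomial
(`a n² + b n + c = (√a n + b/(2√a))² + const`), starting anywhere. -/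
theorem result (α : ℝ) (hα : 0 < α) (S : ℝ) (hS : 0 ≤ S) (ε : ℝ) (hε : 0 < ε) :
    ∃ C : ℝ, ∀ X : ℝ, 1 ≤ X → ∀ (L : ℕ) (x : ℕ → ℝ),
      (∀ j < L, 1 ≤ x j ∧ |x j - (X + j * α) ^ 2| ≤ S) →
      ∑ j ∈ Finset.range L,
        ((Nat.card {p : ℤ × ℤ // (p.1 : ℝ) ^ 2 + (p.2 : ℝ) ^ 2 ≤ x j} : ℝ) - Real.pi * x j) ^ 2
        ≤ C * (X + L) ^ (1 + ε) * (L + (L * X) ^ (1 / 3 : ℝ)) := by
  obtain ⟨C, _, h⟩ := Pool.Agent.H452R2.Circ.ms_short_pert hα hS hε
  exact ⟨C, fun X hX L x hx => h X hX L x hx⟩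

end Pool.Agent.Results.MP_fb29e9_nt.Progressions
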